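import Pool.Agent.helper21.CP.Block

/-!
# Almost no integer is the length of a cycle of Conway's permutation

`T` is Conway's permutation `2m ↦ 3m`, `4m-1 ↦ 3m-1`, `4m+1 ↦ 3m+1` of the positive integers.

* For `0 < η ≤ 1 ≤ X` at most `3 (1 + log (X / η)) / η` cycles of `T` have a length `k ≤ X` such
  that the distance of `k * log 3 / log 2` to the nearest integer is at least `η`.
* At most `C X ^ (22/23) (1 + log X)` integers `k ≤ X` are lengths of cycles of `T`.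
* There are arbitrarily large `q` such that for all `X` with `q ≤ X ≤ q ^ 2` at most
  `15 √X (1 + log X)` integers `k ≤ X` are lengths of cycles of `T`.
-/

set_option autoImplicit false

namespace Pool.Agent.Results.MP_e27b9f_nt.AlmostAllLengths

/-- Conway's permutation `2m ↦ 3m`, `4m-1 ↦ 3m-1`, `4m+1 ↦ 3m+1`. -/
def T (n : ℕ) : ℕ :=
  if n % 2 = 0 then 3 * n / 2 else if n % 4 = 1 then (3 * n + 1) / 4 else (3 * n - 1) / 4

/-- `c` is a cycle of `T`: the orbit of a positive integer `n` with `T^k n = n` for some `k ≥ 1`.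
Its length is its number of elements `c.ncard`. -/
def IsCycle (c : Set ℕ) : Prop :=
  ∃ n : ℕ, 0 < n ∧ (∃ k : ℕ, 1 ≤ k ∧ T^[k] n = n) ∧ c = {m : ℕ | ∃ i : ℕ, T^[i] n = m}

theorem T_eq : T = Pool.Agent.helper94.conwayT := by
  funext n
  unfold T Pool.Agent.helper94.conwayT
  split_ifs <;> omega

open Pool.Agent.helper21.CP Function

theorem isCycle_iff (c : Set ℕ) : IsCycle c ↔ ∃ c' : Finset ℕ, IsCyc c' ∧ (c' : Set ℕ) = c := by
  unfold IsCycle IsCyc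
  rw [T_eq]
  constructor
  · rintro ⟨n, h0, ⟨k, hk, h⟩, rfl⟩
    have hn : n ∈ periodicPts Pool.Agent.helper94.conwayT := ⟨k, by omega, h⟩
    refine ⟨cyc _ n, ⟨n, hn, h0, rfl⟩, ?_⟩
    ext m
    rw [Finset.mem_coe, mem_cyc hn]
    rfl
  · rintro ⟨c', ⟨n, hn, h0, rfl⟩, rfl⟩
    obtain ⟨k, hk, h⟩ := hn
    refine ⟨n, h0, ⟨k, hk, h⟩, ?_⟩
    ext m
    rw [Finset.mem_coe, mem_cyc ⟨k, hk, h⟩]
    rfl

/-- Almost no integer is the length of a cycle of Conway's permutation. -/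
theorem result :
    (∀ X η : ℝ, 1 ≤ X → 0 < η → η ≤ 1 →
      {c : Set ℕ | IsCycle c ∧ (c.ncard : ℝ) ≤ X ∧
        η ≤ |(c.ncard : ℝ) * (Real.log 3 / Real.log 2) -
          round ((c.ncard : ℝ) * (Real.log 3 / Real.log 2))|}.Finite ∧
      ({c : Set ℕ | IsCycle c ∧ (c.ncard : ℝ) ≤ X ∧
        η ≤ |(c.ncard : ℝ) * (Real.log 3 / Real.log 2) -
          round ((c.ncard : ℝ) * (Real.log 3 / Real.log 2))|}.ncard : ℝ) ≤
        3 * (1 + Real.log (X / η)) / η) ∧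
    (∃ C : ℝ, ∀ X : ℝ, 1 ≤ X →
      ({k : ℕ | (∃ c : Set ℕ, IsCycle c ∧ c.ncard = k) ∧ (k : ℝ) ≤ X}.ncard : ℝ) ≤
        C * X ^ (22 / 23 : ℝ) * (1 + Real.log X)) ∧
    ∀ N : ℕ, ∃ q : ℕ, N ≤ q ∧ ∀ X : ℝ, (q : ℝ) ≤ X → X ≤ (q : ℝ) ^ 2 →
      ({k : ℕ | (∃ c : Set ℕ, IsCycle c ∧ c.ncard = k) ∧ (k : ℝ) ≤ X}.ncard : ℝ) ≤
        15 * Real.sqrt X * (1 + Real.log X) := by
  have heq : ∀ X : ℝ, {k : ℕ | (∃ c : Set ℕ, IsCycle c ∧ c.ncard = k) ∧ (k : ℝ) ≤ X} =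
      {k : ℕ | (k : ℝ) ≤ X ∧ k ∈ Lengths} := by
    intro X
    ext k
    simp only [Set.mem_setOf_eq, Lengths]
    constructor
    · rintro ⟨⟨c, hc, hk⟩, hX⟩
      obtain ⟨c', hc', rfl⟩ := (isCycle_iff c).1 hc
      exact ⟨hX, c', hc', by rw [← hk, Set.ncard_coe_finset]⟩
    · rintro ⟨hX, c', hc', hk⟩
      exact ⟨⟨(c' : Set ℕ), (isCycle_iff _).2 ⟨c', hc', rfl⟩, by rw [Set.ncard_coe_finset, hk]⟩, hX⟩
  refine ⟨?_, ?_, ?_⟩
  · intro X η hX hη hη1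
    obtain ⟨hf, hn⟩ := few hX hη hη1
    have heq : {c : Set ℕ | IsCycle c ∧ (c.ncard : ℝ) ≤ X ∧
        η ≤ |(c.ncard : ℝ) * (Real.log 3 / Real.log 2) -
          round ((c.ncard : ℝ) * (Real.log 3 / Real.log 2))|} =
        (fun c : Finset ℕ => (c : Set ℕ)) '' {c : Finset ℕ | IsCyc c ∧ (c.card : ℝ) ≤ X ∧
          η ≤ nint ((c.card : ℝ) * (Real.log 3 / Real.log 2))} := by
      ext c
      simp only [Set.mem_setOf_eq, Set.mem_image]
      constructor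
      · rintro ⟨h1, h2, h3⟩
        obtain ⟨c', hc', rfl⟩ := (isCycle_iff c).1 h1
        rw [Set.ncard_coe_finset] at h2 h3
        exact ⟨c', ⟨hc', h2, h3⟩, rfl⟩
      · rintro ⟨c', ⟨h1, h2, h3⟩, rfl⟩
        refine ⟨(isCycle_iff _).2 ⟨c', h1, rfl⟩, ?_⟩
        rw [Set.ncard_coe_finset]
        exact ⟨h2, h3⟩
    rw [heq]
    refine ⟨hf.image _, ?_⟩
    rw [Set.ncard_image_of_injective _ Finset.coe_injective]
    exact hn
  · obtain ⟨C, _, h⟩ := count_all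
    refine ⟨C, fun X hX => ?_⟩
    rw [heq]
    exact h X hX
  · intro N
    obtain ⟨r, hr, hN⟩ := large_den N
    refine ⟨r.den, hN, fun X h1 h2 => ?_⟩
    rw [heq]
    exact count_half hr h1 h2

end Pool.Agent.Results.MP_e27b9f_nt.AlmostAllLengths
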