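import Mathlib
import Pool.Agent.helper94.ConwayMain

set_option autoImplicit false

/-!
# Every cycle of Conway's permutation with at most 11 blocks of even numbers is known
-/

namespace Pool.Agent.Results.MP_e27b9f_nt.FewBlocks

open Pool.Agent.helper94

/-- If `n` returns to itself after `k` steps of Conway's permutation, and at most 11 of these steps
lead from an odd number to an even number, then `n` is one of the 20 members of the four known
cycles. -/
theorem result (n k : ℕ) (hn : 0 < n) (hk : 0 < k) (hper : conwayT^[k] n = n)
    (hblocks : ((Finset.range k).filter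
      (fun i => conwayT^[i] n % 2 = 1 ∧ conwayT^[i + 1] n % 2 = 0)).card ≤ 11) :
    n ∈ ({1, 2, 3, 4, 6, 9, 7, 5, 44, 66, 99, 74, 111, 83, 62, 93, 70, 105, 79, 59} :
      Finset ℕ) := by
  have h := few_blocks hn hk hper (by
    rw [Nat.count_eq_card_filter_range]
    refine le_trans (le_of_eq ?_) hblocks
    congr!)
  exact h

end Pool.Agent.Results.MP_e27b9f_nt.FewBlocks
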