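import Mathlib
import Pool.Agent.helper94.ConwayMain

set_option autoImplicit false

/-!
# The least element of a cycle of Conway's permutation is polynomially bounded in the length
-/

namespace Pool.Agent.Results.MP_e27b9f_nt.LeastElement

open Pool.Agent.helper94

/-- Every cycle of length `k` of Conway's permutation has an element that is at most
`10 ^ 25 * k ^ 24`. -/
theorem result (n k : ℕ) (hn : 0 < n) (hk : 0 < k) (hper : conwayT^[k] n = n) :
    ∃ i < k, conwayT^[i] n ≤ 10 ^ 25 * k ^ 24 :=
  least_element hn hk hper

end Pool.Agent.Results.MP_e27b9f_nt.LeastElement
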