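import Mathlib
import Pool.Agent.helper94.ConwayMain

set_option autoImplicit false

/-!
# The length of a cycle of Conway's permutation is bounded in terms of its number of blocks
-/

namespace Pool.Agent.Results.MP_e27b9f_nt.LengthVsBlocks

open Pool.Agent.helper94

/-- If `n ≥ 2` returns to itself after `k` steps of Conway's permutation and exactly `M` of these
steps lead from an odd number to an even number, then `k ≤ 5000 * M * (log 3 / log 2) ^ M`. -/
theorem result (n k M : ℕ) (hn : 2 ≤ n) (hk : 0 < k) (hper : conwayT^[k] n = n)
    (hblocks : ((Finset.range k).filter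
      (fun i => conwayT^[i] n % 2 = 1 ∧ conwayT^[i + 1] n % 2 = 0)).card = M) :
    (k : ℝ) ≤ 5000 * M * (Real.log 3 / Real.log 2) ^ M := by
  have h := length_vs_blocks hn hk hper
  have h2 : Nat.count (OE (orbit n)) k = M := by
    rw [Nat.count_eq_card_filter_range, ← hblocks]
    congr!
  rw [h2] at h
  exact h

end Pool.Agent.Results.MP_e27b9f_nt.LengthVsBlocks
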